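import Pool.Agent.Q84.WH.Main

/-!
# The best constant in the weighted Hardy inequality with the weight `(1 + |x|^2)^α`

For every `n ≥ 3` and every real `α ≠ -(n - 2) / 2` the best constant `C(α, n)` in
`∫ (1 + |x|^2)^α |∇u|^2 ≥ c ∫ (1 + |x|^2)^(α - 1) u^2` (for smooth functions with compact support,
with the condition `∫ (1 + |x|^2)^(α - 1) u = 0` if `α < -(n - 2) / 2`) is

* `-2 α` for `α ≤ -n`,
* `-4 α - 2 n` for `-n ≤ α ≤ -(n + 2) / 2`,
* `(n + 2 α - 2)^2 / 4` for `-(n + 2) / 2 ≤ α ≤ 1 + n / 2`, `α ≠ -(n - 2) / 2`,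
* `2 n (α - 1)` for `α ≥ 1 + n / 2`.

Lower bounds: without the constraint by Barta's method with the functions `(1 + |x|^2)^(-β)`.
With the constraint the function is divided into its radial part (average over the orthogonal
group) and the rest `w`; the weight `(1 + |x|^2)^(α - 1)` is a mixture of Gaussians, and the Gaussian
Poincaré inequality gives the constant `-2 α` for `w`; for the radial part one uses the function
`(1 + r^2)^(b - 1) (r^2 - ρ)`, a supersolution on both sides of its zero `√ρ`.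
Upper bounds: cutoffs of `(1 + |x|^2)^a - m` and of `x_1`.
-/

set_option autoImplicit false

open MeasureTheory Set
open scoped ContDiff

namespace Pool.Agent.Results.MP_5b99fd_an.BestConstant

/-- The set `𝒜_α`: nonzero smooth real functions on `ℝ^n` with compact support, with
`∫ (1 + |x|^2)^(α - 1) u(x) dx = 0` in the case `α < -(n - 2) / 2`. -/
def Admissible (n : ℕ) (α : ℝ) (u : EuclideanSpace ℝ (Fin n) → ℝ) : Prop :=
  ContDiff ℝ ∞ u ∧ HasCompactSupport u ∧ u ≠ 0 ∧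
    (α < -((n : ℝ) - 2) / 2 → ∫ x, (1 + ‖x‖ ^ 2) ^ (α - 1) * u x = 0)

/-- The set of the quotients
`∫ (1 + |x|^2)^α |∇u(x)|^2 dx / ∫ (1 + |x|^2)^(α - 1) u(x)^2 dx`, `u ∈ 𝒜_α`. -/
def quotients (n : ℕ) (α : ℝ) : Set ℝ :=
  {q | ∃ u : EuclideanSpace ℝ (Fin n) → ℝ, Admissible n α u ∧
    q = (∫ x, (1 + ‖x‖ ^ 2) ^ α * ‖gradient u x‖ ^ 2) / ∫ x, (1 + ‖x‖ ^ 2) ^ (α - 1) * u x ^ 2}

/-- The best constant `C(α, n)`. -/
noncomputable def C (α : ℝ) (n : ℕ) : ℝ := sInf (quotients n α)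

open Pool.Agent.Q84.WH in
theorem isGLB_best (n : ℕ) (hn : 3 ≤ n) (α : ℝ) (hα : α ≠ -((n : ℝ) - 2) / 2) :
    IsGLB (quotients n α) (best n α) := by
  have hpos : ∀ u : E n → ℝ, ContDiff ℝ ∞ u → HasCompactSupport u → u ≠ 0 →
      0 < ∫ x, hw x ^ (α - 1) * u x ^ 2 := by
    intro u hu hc h0
    obtain ⟨x, hx⟩ := Function.ne_iff.1 h0
    refine ((cont_hwr (α - 1)).mul (hu.continuous.pow 2)).integral_pos_of_hasCompactSupport_nonneg_nonzero
      (sq_supp hc).mul_left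
      (fun x => mul_nonneg (Real.rpow_nonneg (hw_pos x).le _) (sq_nonneg _)) (x := x) ?_
    have h1 : u x ≠ 0 := hx
    have := Real.rpow_pos_of_pos (hw_pos x) (α - 1)
    positivity
  have hEg : ∀ u : E n → ℝ, ∫ x, (1 + ‖x‖ ^ 2) ^ α * ‖gradient u x‖ ^ 2 =
      ∫ x, hw x ^ α * ‖fderiv ℝ u x‖ ^ 2 := by
    intro u
    simp_rw [grad_norm]
    rfl
  constructor
  · rintro q ⟨u, ⟨hu, hc, h0, hcon⟩, rfl⟩
    rw [hEg]
    exact (le_div_iff₀ (hpos u hu hc h0)).2 (LB_best n hn α hα u hu hc hcon)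
  · intro b hb
    refine best_max n hn α hα b ?_
    intro u hu hc hcon
    by_cases h0 : u = 0
    · subst h0
      have e1 : ∫ x : E n, hw x ^ (α - 1) * (0 : E n → ℝ) x ^ 2 = 0 := by simp
      rw [e1, mul_zero]
      exact integral_nonneg fun x => mul_nonneg (Real.rpow_nonneg (hw_pos x).le _) (sq_nonneg _)
    · have := hb ⟨u, ⟨hu, hc, h0, hcon⟩, rfl⟩
      rw [hEg] at this
      exact (le_div_iff₀ (hpos u hu hc h0)).1 this

theorem nonempty_quotients (n : ℕ) (hn : 3 ≤ n) (α : ℝ) (hα : α ≠ -((n : ℝ) - 2) / 2) :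
    (quotients n α).Nonempty := by
  by_contra h
  rw [Set.not_nonempty_iff_eq_empty] at h
  have h1 := isGLB_best n hn α hα
  rw [h] at h1
  have h2 : Pool.Agent.Q84.WH.best n α + 1 ≤ Pool.Agent.Q84.WH.best n α :=
    h1.2 (by simp [lowerBounds])
  linarith

/-- **The best constant `C(α, n)` for every `n ≥ 3` and every `α ≠ -(n - 2) / 2`.** -/
theorem result (n : ℕ) (hn : 3 ≤ n) (α : ℝ) (hα : α ≠ -((n : ℝ) - 2) / 2) :
    (quotients n α).Nonempty ∧ BddBelow (quotients n α) ∧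
    (α ≤ -(n : ℝ) → C α n = -2 * α) ∧
    (-(n : ℝ) ≤ α → α ≤ -((n : ℝ) + 2) / 2 → C α n = -4 * α - 2 * n) ∧
    (-((n : ℝ) + 2) / 2 ≤ α → α ≤ 1 + (n : ℝ) / 2 → C α n = ((n : ℝ) + 2 * α - 2) ^ 2 / 4) ∧
    (1 + (n : ℝ) / 2 ≤ α → C α n = 2 * n * (α - 1)) := by
  have hn3 : (3:ℝ) ≤ n := by exact_mod_cast hn
  have hG := isGLB_best n hn α hα
  have hne := nonempty_quotients n hn α hα
  have hC : C α n = Pool.Agent.Q84.WH.best n α := hG.csInf_eq hne
  refine ⟨hne, ⟨_, hG.1⟩, ?_, ?_, ?_, ?_⟩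
  · intro h1
    rw [hC]
    unfold Pool.Agent.Q84.WH.best
    rw [if_pos (by linarith), if_pos h1]
  · intro h1 h2
    rw [hC]
    unfold Pool.Agent.Q84.WH.best
    rw [if_pos (by linarith)]
    split_ifs with h3
    · have : α = -(n : ℝ) := le_antisymm h3 h1
      rw [this]; ring
    · rfl
  · intro h1 h2
    rw [hC]
    unfold Pool.Agent.Q84.WH.best
    split_ifs with h3 h4 h5
    · exfalso; linarith
    · have : α = -((n : ℝ) + 2) / 2 := le_antisymm h5 h1
      rw [this]; ring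
    · rfl
    · rfl
  · intro h1
    rw [hC]
    unfold Pool.Agent.Q84.WH.best
    rw [if_neg (by linarith)]
    split_ifs with h3
    · have : α = 1 + (n : ℝ) / 2 := le_antisymm h3 h1
      rw [this]; ring
    · rfl

end Pool.Agent.Results.MP_5b99fd_an.BestConstant
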